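import Pool.Agent.Helper91.PL.Defs2

/-!
# MP_bae8ce_ag, module P2 : additive polynomials and the pencil relation
-/

set_option autoImplicit false
set_option linter.unusedSectionVars false

open Finset

namespace PL

noncomputable section

section P2

/-- The product over the prime field. -/
theorem p2_prod (p : ℕ) [Fact p.Prime] (K : Type) [Field K] [Algebra (ZMod p) K] (x y : K) :
    ∏ c : ZMod p, (x + algebraMap (ZMod p) K c * y) = x ^ p - y ^ (p - 1) * x := by
  have hp : p.Prime := Fact.out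
  have h1 : (∏ c : ZMod p, (Polynomial.X - Polynomial.C c) : Polynomial (ZMod p)) =
      Polynomial.X ^ p - Polynomial.X := by
    have hr := FiniteField.roots_X_pow_card_sub_X (ZMod p)
    rw [ZMod.card] at hr
    have hdeg := FiniteField.X_pow_card_sub_X_natDegree_eq (ZMod p) hp.one_lt
    have hmon : (Polynomial.X ^ p - Polynomial.X : Polynomial (ZMod p)).Monic := by
      refine Polynomial.monic_X_pow_sub ?_
      rw [Polynomial.degree_X]
      exact_mod_cast hp.one_lt
    have h3 := Polynomial.prod_multiset_X_sub_C_of_monic_of_roots_card_eq hmon (by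
      rw [hr, hdeg]
      simp [ZMod.card])
    rw [hr] at h3
    exact h3
  have h2 : ∀ t : K, ∏ c : ZMod p, (t + algebraMap (ZMod p) K c) = t ^ p - t := by
    intro t
    have h3 := congrArg (fun f => Polynomial.aeval t f) h1
    simp only [map_prod, map_sub, Polynomial.aeval_X, Polynomial.aeval_C, map_pow] at h3
    rw [← h3]
    refine Fintype.prod_equiv (Equiv.neg _) _ _ fun c => ?_
    simp
  by_cases hy : y = 0
  · subst hy
    simp only [mul_zero, add_zero, Finset.prod_const, Finset.card_univ, ZMod.card]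
    rw [zero_pow (by have := hp.two_le; omega)]
    ring
  · have h4 : ∏ c : ZMod p, (x + algebraMap (ZMod p) K c * y) =
        ∏ c : ZMod p, (y * (x / y + algebraMap (ZMod p) K c)) := by
      refine Finset.prod_congr rfl fun c _ => ?_
      field_simp
    rw [h4, Finset.prod_mul_distrib, h2, Finset.prod_const, Finset.card_univ, ZMod.card, div_pow]
    obtain ⟨p', hp'⟩ : ∃ p', p = p' + 1 := ⟨p - 1, by have := hp.two_le; omega⟩
    have h5 : y ^ p = y ^ (p - 1) * y := by
      rw [hp', Nat.add_sub_cancel, pow_succ]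
    have h6 : y ^ p * (x ^ p / y ^ p - x / y) = x ^ p - (y ^ (p - 1) * y) * (x / y) := by
      rw [← h5]
      field_simp
    rw [h6]
    field_simp

theorem prod_additive (p : ℕ) [Fact p.Prime] (K : Type) [Field K] [Algebra (ZMod p) K] (m : ℕ)
    (u : Fin m → K) (x y : K) :
    ∏ a : Fin m → ZMod p, (x + y + ∑ l, algebraMap (ZMod p) K (a l) * u l) =
      ∏ a : Fin m → ZMod p, (x + ∑ l, algebraMap (ZMod p) K (a l) * u l) +
      ∏ a : Fin m → ZMod p, (y + ∑ l, algebraMap (ZMod p) K (a l) * u l) := by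
  have hchar : CharP K p := charP_of_injective_algebraMap (algebraMap (ZMod p) K).injective p
  -- the product as a function
  set L : (m : ℕ) → (Fin m → K) → K → K := fun m u x =>
    ∏ a : Fin m → ZMod p, (x + ∑ l, algebraMap (ZMod p) K (a l) * u l) with hL
  suffices H : ∀ (m : ℕ) (u : Fin m → K),
      (∀ x y, L m u (x + y) = L m u x + L m u y) ∧
      ∀ (c : ZMod p) x, L m u (algebraMap (ZMod p) K c * x) = algebraMap (ZMod p) K c * L m u x from
    (H m u).1 x y
  intro m
  induction m with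
  | zero =>
    intro u
    simp [hL]
  | succ m ih =>
    intro u
    obtain ⟨ih1, ih2⟩ := ih (fun l => u l.succ)
    have hsucc : ∀ x, L (m + 1) u x = L m (fun l => u l.succ) x ^ p -
        L m (fun l => u l.succ) (u 0) ^ (p - 1) * L m (fun l => u l.succ) x := by
      intro x
      rw [← p2_prod p K]
      have h1 : L (m + 1) u x = ∏ b : ZMod p × (Fin m → ZMod p),
          (x + algebraMap (ZMod p) K b.1 * u 0 +
            ∑ l, algebraMap (ZMod p) K (b.2 l) * u l.succ) := by
        simp only [hL]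
        refine (Fintype.prod_equiv (Fin.consEquiv (fun _ => ZMod p)) _ _ fun b => ?_).symm
        rw [Fin.sum_univ_succ]
        simp only [Fin.consEquiv_apply, Fin.cons_zero, Fin.cons_succ]
        ring
      rw [h1, Fintype.prod_prod_type]
      refine Finset.prod_congr rfl fun c _ => ?_
      rw [← ih2, ← ih1]
    refine ⟨?_, ?_⟩
    · intro x y
      rw [hsucc, hsucc, hsucc, ih1, add_pow_char]
      ring
    · intro c x
      rw [hsucc, hsucc, ih2, mul_pow]
      have h1 : (algebraMap (ZMod p) K c) ^ p = algebraMap (ZMod p) K c := by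
        rw [← map_pow, ZMod.pow_card]
      rw [h1]
      ring

universe u

variable {F₁ : Type u} [Field F₁]

theorem p2_lg_mul {x y : F₁} (hx : x ≠ 0) (hy : y ≠ 0) : lg (x * y) = lg x + lg y := by
  rw [lg, lg, lg, dif_neg hx, dif_neg hy, dif_neg (mul_ne_zero hx hy), ← TensorProduct.tmul_add,
    ← ofMul_mul]
  congr 2
  exact Units.ext rfl

theorem p2_lg_one : lg (1 : F₁) = 0 := by
  have h := p2_lg_mul (one_ne_zero (α := F₁)) one_ne_zero
  rw [mul_one] at h
  exact left_eq_add.1 h

theorem p2_lg_inv {x : F₁} (hx : x ≠ 0) : lg x⁻¹ = - lg x := by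
  have h := p2_lg_mul hx (inv_ne_zero hx)
  rw [mul_inv_cancel₀ hx, p2_lg_one] at h
  exact (neg_eq_of_add_eq_zero_right h.symm).symm

theorem p2_lg_neg (x : F₁) : lg (-x) = lg x := by
  by_cases hx : x = 0
  · rw [hx, neg_zero]
  have h1 : lg (-1 : F₁) = 0 := by
    have h2 := p2_lg_mul (neg_ne_zero.2 (one_ne_zero (α := F₁))) (neg_ne_zero.2 one_ne_zero)
    rw [neg_mul_neg, one_mul, p2_lg_one] at h2
    have h3 : (2 : ℚ) • lg (-1 : F₁) = 0 := by rw [two_smul]; exact h2.symm
    exact (smul_eq_zero.1 h3).resolve_left (by norm_num)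
  have h2 := p2_lg_mul (neg_ne_zero.2 (one_ne_zero (α := F₁))) hx
  rw [h1, zero_add, neg_one_mul] at h2
  exact h2

theorem p2_lg_prod {ι : Type*} (s : Finset ι) (f : ι → F₁) (hf : ∀ i ∈ s, f i ≠ 0) :
    lg (∏ i ∈ s, f i) = ∑ i ∈ s, lg (f i) := by
  classical
  induction s using Finset.induction_on with
  | empty => rw [Finset.prod_empty, Finset.sum_empty, p2_lg_one]
  | insert a s ha ih =>
    rw [Finset.prod_insert ha, Finset.sum_insert ha,
      p2_lg_mul (hf a (Finset.mem_insert_self _ _))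
        (Finset.prod_ne_zero_iff.2 fun i hi => hf i (Finset.mem_insert_of_mem hi)),
      ih fun i hi => hf i (Finset.mem_insert_of_mem hi)]

variable {k : Type} [Field k] [Fintype k] [DecidableEq k]

variable {F : Type} [Field F] [Algebra k F]

theorem p2_el_add (x y : k × k) : el F (x + y) = el F x + el F y := by
  simp only [el, Prod.fst_add, Prod.snd_add, map_add]
  ring

theorem p2_el_smul (c : k) (x : k × k) :
    el F (c • x) = RatFunc.C (algebraMap k F c) * el F x := by
  simp only [el, Prod.smul_fst, Prod.smul_snd, smul_eq_mul, map_mul]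
  ring

theorem p2_el_sum {ι : Type*} (s : Finset ι) (f : ι → k × k) :
    el F (∑ i ∈ s, f i) = ∑ i ∈ s, el F (f i) := by
  classical
  induction s using Finset.induction_on with
  | empty => simp [el]
  | insert a s ha ih => rw [Finset.sum_insert ha, Finset.sum_insert ha, p2_el_add, ih]

theorem p2_el_ne {x : k × k} (hx : x ≠ 0) : el F x ≠ 0 := by
  intro h
  have hpoly : (algebraMap (Polynomial F) (RatFunc F))
      (Polynomial.C (algebraMap k F x.1) * Polynomial.X + Polynomial.C (algebraMap k F x.2)) =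
      0 := by
    rw [map_add, map_mul, RatFunc.algebraMap_C, RatFunc.algebraMap_C, RatFunc.algebraMap_X]
    exact h
  rw [map_eq_zero_iff _ (RatFunc.algebraMap_injective F)] at hpoly
  apply hx
  have h1 := congrArg (fun f => Polynomial.coeff f 1) hpoly
  have h0 := congrArg (fun f => Polynomial.coeff f 0) hpoly
  simp only [Polynomial.coeff_add, Polynomial.coeff_C_mul, Polynomial.coeff_X_one, mul_one,
    Polynomial.coeff_zero, Polynomial.coeff_X_zero, mul_zero, zero_add,
    Polynomial.coeff_C_zero] at h1 h0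
  rw [Polynomial.coeff_C_succ, add_zero] at h1
  exact Prod.ext ((map_eq_zero _).1 h1) ((map_eq_zero _).1 h0)

theorem p2_bar_neg (x : k × k) : bar F (-x) = bar F x := by
  by_cases hx : x = 0
  · rw [hx, neg_zero]
  rw [bar, bar, if_neg hx, if_neg (neg_ne_zero.2 hx)]
  have h1 : el F (-x) = - el F x := by
    have h2 := p2_el_add (F := F) x (-x)
    rw [add_neg_cancel] at h2
    have h3 : el F (0 : k × k) = 0 := by simp [el]
    rw [h3] at h2
    exact (neg_eq_of_add_eq_zero_right h2.symm).symm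
  rw [h1, p2_lg_neg]

theorem p2_bar_eq {x : k × k} (hx : x ≠ 0) : bar F x = lg (el F x) - del k F := by
  rw [bar, if_neg hx]

/-- The combination of the vectors `u_l`. -/
def p2_cb (p : ℕ) [Algebra (ZMod p) k] {r : ℕ} (u : Fin r → k × k) (a : Fin r → ZMod p) : k × k :=
  ∑ l, algebraMap (ZMod p) k (a l) • u l

/-- The sums. -/
def p2_sm (p : ℕ) [NeZero p] [Algebra (ZMod p) k] (F : Type) [Field F] [Algebra k F] {r : ℕ}
    (u : Fin r → k × k) (x : k × k) : V (RatFunc F) :=
  ∑ a : Fin r → ZMod p, bar F (x + p2_cb p u a)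

theorem p2_cb_add (p : ℕ) [Algebra (ZMod p) k] {r : ℕ} (u : Fin r → k × k)
    (a b : Fin r → ZMod p) : p2_cb p u (a + b) = p2_cb p u a + p2_cb p u b := by
  simp only [p2_cb, Pi.add_apply, map_add, add_smul, Finset.sum_add_distrib]

theorem p2_cb_neg (p : ℕ) [Algebra (ZMod p) k] {r : ℕ} (u : Fin r → k × k)
    (a : Fin r → ZMod p) : p2_cb p u (-a) = - p2_cb p u a := by
  simp only [p2_cb, Pi.neg_apply, map_neg, neg_smul, Finset.sum_neg_distrib]

theorem p2_shift (p : ℕ) [NeZero p] [Algebra (ZMod p) k] {r : ℕ} (u : Fin r → k × k)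
    (x : k × k) (b : Fin r → ZMod p) : p2_sm p F u (x + p2_cb p u b) = p2_sm p F u x := by
  refine Fintype.sum_equiv (Equiv.addLeft b) _ _ fun a => ?_
  rw [Equiv.coe_addLeft, p2_cb_add, add_assoc]

theorem p2_neg (p : ℕ) [NeZero p] [Algebra (ZMod p) k] {r : ℕ} (u : Fin r → k × k)
    (x : k × k) : p2_sm p F u (-x) = p2_sm p F u x := by
  refine Fintype.sum_equiv (Equiv.neg _) _ _ fun a => ?_
  rw [Equiv.neg_apply, p2_cb_neg, ← p2_bar_neg]
  congr 1
  abel

/-- The product of the linear forms. -/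
def p2_L (p : ℕ) [NeZero p] [Algebra (ZMod p) k] (F : Type) [Field F] [Algebra k F] {r : ℕ}
    (u : Fin r → k × k) (x : k × k) : RatFunc F :=
  ∏ a : Fin r → ZMod p, el F (x + p2_cb p u a)

theorem p2_L_add (p : ℕ) [Fact p.Prime] [Algebra (ZMod p) k] {r : ℕ} (u : Fin r → k × k)
    (x y : k × k) : p2_L p F u (x + y) = p2_L p F u x + p2_L p F u y := by
  let φ : ZMod p →+* RatFunc F :=
    (RatFunc.C : F →+* RatFunc F).comp ((algebraMap k F).comp (algebraMap (ZMod p) k))
  let _ : Algebra (ZMod p) (RatFunc F) := φ.toAlgebra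
  have h := prod_additive p (RatFunc F) r (fun l => el F (u l)) (el F x) (el F y)
  have h1 : ∀ z : k × k, p2_L p F u z = ∏ a : Fin r → ZMod p,
      (el F z + ∑ l, algebraMap (ZMod p) (RatFunc F) (a l) * el F (u l)) := by
    intro z
    refine Finset.prod_congr rfl fun a _ => ?_
    rw [p2_el_add, p2_cb, p2_el_sum]
    congr 1
    refine Finset.sum_congr rfl fun l _ => ?_
    rw [p2_el_smul]
    rfl
  rw [h1, h1, h1, ← h, p2_el_add]

theorem p2_L_ne (p : ℕ) [Fact p.Prime] [Algebra (ZMod p) k] {r : ℕ} (u : Fin r → k × k)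
    (x : k × k) (hx : ∀ a, x + p2_cb p u a ≠ 0) : p2_L p F u x ≠ 0 :=
  Finset.prod_ne_zero_iff.2 fun a _ => p2_el_ne (hx a)

theorem p2_sm_eq (p : ℕ) [Fact p.Prime] [Algebra (ZMod p) k] {r : ℕ} (u : Fin r → k × k)
    (x : k × k) (hx : ∀ a, x + p2_cb p u a ≠ 0) :
    p2_sm p F u x = lg (p2_L p F u x) - Fintype.card (Fin r → ZMod p) • del k F := by
  rw [p2_sm, p2_L, p2_lg_prod _ _ fun a _ => p2_el_ne (hx a),
    Finset.sum_congr rfl fun a _ => p2_bar_eq (hx a), Finset.sum_sub_distrib, Finset.sum_const,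
    Finset.card_univ]

/-- The key vanishing. -/
theorem p2_key (p : ℕ) [Fact p.Prime] [Algebra (ZMod p) k] {r : ℕ}
    (φ : MultilinearMap ℚ (fun _ : Fin (r + 2) => V (RatFunc F)) ℚ) (hφ : Adm φ)
    (hz : ∀ f : RatFunc F, f ≠ 0 → f ≠ 1 → φ (Fin.cons (lg (1 - f)) fun _ => lg f) = 0)
    (v w : k × k) (u : Fin r → k × k) :
    φ (Fin.cons (p2_sm p F u w - p2_sm p F u (w + v))
      fun _ => p2_sm p F u v - p2_sm p F u (w + v)) = 0 := by
  by_cases hv : ∃ b, v + p2_cb p u b = 0
  · obtain ⟨b, hb⟩ := hv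
    have h1 : p2_sm p F u (w + v) = p2_sm p F u w := by
      rw [← p2_shift p u (w + v) b, add_assoc, hb, add_zero]
    refine φ.map_coord_zero 0 ?_
    rw [Fin.cons_zero, h1, sub_self]
  by_cases hw : ∃ b, w + p2_cb p u b = 0
  · obtain ⟨b, hb⟩ := hw
    have h1 : p2_sm p F u (w + v) = p2_sm p F u v := by
      rw [← p2_shift p u (w + v) b, add_comm w v, add_assoc, hb, add_zero]
    refine φ.map_coord_zero 1 ?_
    rw [h1, sub_self]
    rfl
  by_cases hvw : ∃ b, (w + v) + p2_cb p u b = 0
  · obtain ⟨b, hb⟩ := hvw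
    have h1 : p2_sm p F u w = p2_sm p F u v := by
      have h2 : w + p2_cb p u b = -v := by
        rw [eq_neg_iff_add_eq_zero, ← hb]
        abel
      rw [← p2_shift p u w b, h2, p2_neg]
    rw [h1]
    have h2 : (Fin.cons (p2_sm p F u v - p2_sm p F u (w + v))
        (fun _ => p2_sm p F u v - p2_sm p F u (w + v)) : Fin (r + 2) → V (RatFunc F)) =
        fun _ => p2_sm p F u v - p2_sm p F u (w + v) := by
      funext i
      refine Fin.cases ?_ (fun j => ?_) i
      · rw [Fin.cons_zero]
      · rw [Fin.cons_succ]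
    rw [h2]
    exact hφ.diag _
  push Not at hv hw hvw
  have hLv := p2_L_ne (F := F) p u v hv
  have hLw := p2_L_ne (F := F) p u w hw
  have hLvw := p2_L_ne (F := F) p u (w + v) hvw
  have hadd := p2_L_add (F := F) p u w v
  rw [p2_sm_eq p u v hv, p2_sm_eq p u w hw, p2_sm_eq p u (w + v) hvw]
  set A := p2_L p F u v
  set B := p2_L p F u w
  set C := p2_L p F u (w + v)
  have hf1 : 1 - A / C = B / C := by
    rw [eq_div_iff hLvw, sub_mul, div_mul_cancel₀ _ hLvw, hadd]
    ring
  have h1 := hz (A / C) (div_ne_zero hLv hLvw) (by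
    intro h
    rw [h, sub_self] at hf1
    exact div_ne_zero hLw hLvw hf1.symm)
  rw [hf1, div_eq_mul_inv, div_eq_mul_inv, p2_lg_mul hLw (inv_ne_zero hLvw),
    p2_lg_mul hLv (inv_ne_zero hLvw), p2_lg_inv hLvw] at h1
  rw [← h1]
  congr 1
  refine congrArg₂ _ ?_ ?_
  · abel
  · funext _
    abel

theorem Phi_pencil (p : ℕ) [Fact p.Prime] [Algebra (ZMod p) k] {r : ℕ}
    (φ : MultilinearMap ℚ (fun _ : Fin (r + 2) => V (RatFunc F)) ℚ) (hφ : Adm φ)
    (hz : ∀ f : RatFunc F, f ≠ 0 → f ≠ 1 → φ (Fin.cons (lg (1 - f)) fun _ => lg f) = 0) :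
    Pencil p (Phi (k := k) φ) := by
  intro z
  set w := z 0 with hw
  set v := z 1 with hv
  set u : Fin r → k × k := fun l => z l.succ.succ with hu
  -- the vectors
  let row : Fin (r + 2) → Bool → k × k := fun i e =>
    (if i = 0 ∨ e = true then w else 0) + (if i ≠ 0 ∨ e = true then v else 0)
  have hrow : ∀ (ε : Fin (r + 2) → Bool) (a : Fin (r + 2) → Fin r → ZMod p) (i : Fin (r + 2)),
      act (bc (GM ε a)) z i = row i (ε i) + p2_cb p u (a i) := by
    intro ε a i
    simp only [act, bc, Matrix.map_apply, GM]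
    rw [Fin.sum_univ_succ, Fin.sum_univ_succ]
    simp only [Fin.cons_zero, Fin.cons_succ, row, p2_cb, hu]
    rw [← add_assoc]
    congr 1
    congr 1
    · split_ifs <;> simp [hw]
    · split_ifs <;> simp [hv]
  let g : Fin (r + 2) → Bool × (Fin r → ZMod p) → V (RatFunc F) := fun i b =>
    (if b.1 = true then (-1 : ℚ) else 1) • bar F (row i b.1 + p2_cb p u b.2)
  have h1 : φ (fun i => ∑ b, g i b) = 0 := by
    have h2 : (fun i => ∑ b, g i b) = (Fin.cons (p2_sm p F u w - p2_sm p F u (w + v))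
        (fun _ => p2_sm p F u v - p2_sm p F u (w + v)) : Fin (r + 2) → V (RatFunc F)) := by
      funext i
      rw [Fintype.sum_prod_type, Fintype.sum_bool]
      simp only [g, if_true, row, or_true, neg_smul, one_smul, Finset.sum_neg_distrib,
        Bool.false_eq_true, if_false, or_false]
      refine Fin.cases ?_ (fun j => ?_) i
      · rw [Fin.cons_zero]
        simp only [ne_eq, not_true_eq_false, if_true, if_false, add_zero]
        rw [neg_add_eq_sub]
        rfl
      · rw [Fin.cons_succ]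
        simp only [ne_eq, Fin.succ_ne_zero, not_false_eq_true, if_true, if_false, zero_add]
        rw [neg_add_eq_sub]
        rfl
    rw [h2]
    exact p2_key p φ hφ hz v w u
  rw [φ.map_sum] at h1
  have h2 : ∀ b : Fin (r + 2) → Bool × (Fin r → ZMod p),
      φ (fun i => g i (b i)) = (∏ i, if (b i).1 = true then (-1 : ℚ) else 1) *
        φ (fun i => bar F (row i (b i).1 + p2_cb p u (b i).2)) := by
    intro b
    simp only [g]
    rw [φ.map_smul_univ, smul_eq_mul]
  rw [Finset.sum_congr rfl fun b _ => h2 b] at h1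
  have h3 : ∑ ε : Fin (r + 2) → Bool, ∑ a : Fin (r + 2) → Fin r → ZMod p,
      sg ε * Phi φ (act (bc (GM ε a)) z) =
      ((∑ b : Fin (r + 2) → Bool × (Fin r → ZMod p),
        (∏ i, if (b i).1 = true then (-1 : ℚ) else 1) *
          φ (fun i => bar F (row i (b i).1 + p2_cb p u (b i).2)) : ℚ) : ℝ) := by
    rw [← Fintype.sum_prod_type', Rat.cast_sum]
    refine (Fintype.sum_equiv (Equiv.arrowProdEquivProdArrow (Fin (r + 2)) (fun _ => Bool)
      (fun _ => Fin r → ZMod p)) _ _ fun b => ?_).symm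
    simp only [Equiv.arrowProdEquivProdArrow_apply]
    rw [Rat.cast_mul, Phi, sg]
    congr 1
    · rw [Rat.cast_prod]
      refine Finset.prod_congr rfl fun i _ => ?_
      split_ifs <;> simp
    · congr 2
      funext i
      rw [hrow]
  rw [h3, h1, Rat.cast_zero]

end P2

end

end PL
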